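import Pool.Agent.Helper29.CP.Base

/-!
MP_82cbb9_al, module CP-10: the fibre product and the reduction to linear groups.
-/

set_option autoImplicit false

namespace Pool.Agent.CP

open Polynomial

/-- CP-10a (Tietze) -/
theorem ker_fng {G : Type} [Group G] [hG : Group.IsFinitelyPresented G] {d : ℕ}
    (π : FreeGroup (Fin d) →* G) (hπ : Function.Surjective π) :
    π.ker.IsFinitelyNormallyGenerated := by
  obtain ⟨n, φ, hφ, S, hS, hSφ⟩ := hG.out
  choose al hal using fun i : Fin d => hφ (π (FreeGroup.of i))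
  choose be hbe using fun i : Fin n => hπ (φ (FreeGroup.of i))
  let α : FreeGroup (Fin d) →* FreeGroup (Fin n) := FreeGroup.lift al
  let β : FreeGroup (Fin n) →* FreeGroup (Fin d) := FreeGroup.lift be
  have h1 : φ.comp α = π := by
    apply FreeGroup.ext_hom
    intro i
    simp [α, hal]
  have h2 : π.comp β = φ := by
    apply FreeGroup.ext_hom
    intro i
    simp [β, hbe]
  have h1' : ∀ f, φ (α f) = π f := fun f => DFunLike.congr_fun h1 f
  have h2' : ∀ f, π (β f) = φ f := fun f => DFunLike.congr_fun h2 f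
  let T : Set (FreeGroup (Fin d)) :=
    β '' S ∪ Set.range fun i : Fin d => (FreeGroup.of i)⁻¹ * β (α (FreeGroup.of i))
  refine ⟨T, (hS.image _).union (Set.finite_range _), le_antisymm ?_ ?_⟩
  · refine Subgroup.normalClosure_le_normal ?_
    rintro x (⟨s, hs, rfl⟩ | ⟨i, rfl⟩)
    · have : s ∈ φ.ker := by rw [← hSφ]; exact Subgroup.subset_normalClosure hs
      show π (β s) = 1
      rw [h2']; exact this
    · show π ((FreeGroup.of i)⁻¹ * β (α (FreeGroup.of i))) = 1
      rw [map_mul, map_inv, h2', h1', inv_mul_cancel]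
  · intro f hf
    -- `f ≡ β (α f)`
    have key : (QuotientGroup.mk' (Subgroup.normalClosure T)).comp (β.comp α)
        = QuotientGroup.mk' (Subgroup.normalClosure T) := by
      apply FreeGroup.ext_hom
      intro i
      have hi : (FreeGroup.of i)⁻¹ * β (α (FreeGroup.of i)) ∈ Subgroup.normalClosure T :=
        Subgroup.subset_normalClosure (Or.inr ⟨i, rfl⟩)
      exact (QuotientGroup.eq.2 hi).symm
    have key' : (QuotientGroup.mk' (Subgroup.normalClosure T)) (β (α f))
        = QuotientGroup.mk' (Subgroup.normalClosure T) f := DFunLike.congr_fun key f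
    have hα : α f ∈ Subgroup.normalClosure S := by
      rw [hSφ]; show φ (α f) = 1; rw [h1']; exact hf
    have hle : Subgroup.normalClosure S ≤ (Subgroup.normalClosure T).comap β := by
      refine Subgroup.normalClosure_le_normal ?_
      intro s hs
      exact Subgroup.subset_normalClosure (Or.inl ⟨s, hs, rfl⟩)
    have hβ : β (α f) ∈ Subgroup.normalClosure T := hle hα
    have h3 : QuotientGroup.mk' (Subgroup.normalClosure T) f = 1 := by
      rw [← key']
      exact (QuotientGroup.eq_one_iff _).2 hβ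
    exact (QuotientGroup.eq_one_iff _).1 h3

/-- the fibre product `{(a,b) | π a = π b}` -/
def fib {G : Type} [Group G] {d : ℕ} (π : FreeGroup (Fin d) →* G) :
    Subgroup (FreeGroup (Fin d) × FreeGroup (Fin d)) :=
  MonoidHom.eqLocus (π.comp (MonoidHom.fst _ _)) (π.comp (MonoidHom.snd _ _))

theorem mem_fib {G : Type} [Group G] {d : ℕ} (π : FreeGroup (Fin d) →* G)
    (x : FreeGroup (Fin d) × FreeGroup (Fin d)) : x ∈ fib π ↔ π x.1 = π x.2 := Iff.rfl

/-- CP-10b -/
theorem fib_fg {G : Type} [Group G] {d : ℕ} (π : FreeGroup (Fin d) →* G)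
    (h : π.ker.IsFinitelyNormallyGenerated) : (fib π).FG := by
  obtain ⟨S, hS, hSπ⟩ := h
  rw [Subgroup.fg_iff]
  let T : Set (FreeGroup (Fin d) × FreeGroup (Fin d)) :=
    (Set.range fun i : Fin d => (FreeGroup.of i, FreeGroup.of i)) ∪ (fun r => (r, 1)) '' S
  refine ⟨T, le_antisymm ?_ ?_, (Set.finite_range _).union (hS.image _)⟩
  · rw [Subgroup.closure_le]
    rintro x (⟨i, rfl⟩ | ⟨r, hr, rfl⟩)
    · exact rfl
    · have : r ∈ π.ker := by rw [← hSπ]; exact Subgroup.subset_normalClosure hr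
      show π r = π 1
      rw [map_one]; exact this
  · have hdiag : ∀ f : FreeGroup (Fin d), (f, f) ∈ Subgroup.closure T := by
      intro f
      have : (⊤ : Subgroup (FreeGroup (Fin d))) ≤
          (Subgroup.closure T).comap ((MonoidHom.id _).prod (MonoidHom.id _)) := by
        rw [← FreeGroup.closure_range_of, Subgroup.closure_le]
        rintro x ⟨i, rfl⟩
        exact Subgroup.subset_closure (Or.inl ⟨i, rfl⟩)
      exact this (Subgroup.mem_top f)
    let K : Subgroup (FreeGroup (Fin d)) := (Subgroup.closure T).comap (MonoidHom.inl _ _)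
    have hKn : K.Normal := by
      refine ⟨fun r hr f => ?_⟩
      have hr' : (r, (1 : FreeGroup (Fin d))) ∈ Subgroup.closure T := hr
      have := (Subgroup.closure T).mul_mem ((Subgroup.closure T).mul_mem (hdiag f) hr')
        ((Subgroup.closure T).inv_mem (hdiag f))
      show (f * r * f⁻¹, (1 : FreeGroup (Fin d))) ∈ Subgroup.closure T
      simpa using this
    have hle : π.ker ≤ K := by
      rw [← hSπ]
      refine Subgroup.normalClosure_le_normal ?_
      intro r hr
      exact Subgroup.subset_closure (Or.inr ⟨r, hr, rfl⟩)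
    rintro ⟨a, b⟩ hab
    have hab' : π a = π b := hab
    have h1 : a * b⁻¹ ∈ π.ker := by
      rw [MonoidHom.mem_ker, map_mul, map_inv, hab', mul_inv_cancel]
    have h2 : (a * b⁻¹, (1 : FreeGroup (Fin d))) ∈ Subgroup.closure T := hle h1
    have := (Subgroup.closure T).mul_mem h2 (hdiag b)
    simpa using this

/-! ### the bimodule -/

section Bimod

variable {d m : ℕ}

/-- matrices of size `m` as vectors of length `m * m` -/
def red_vec (m : ℕ) : Matrix (Fin m) (Fin m) ℚ ≃ₗ[ℚ] (Fin (m * m) → ℚ) where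
  toFun X i := X (finProdFinEquiv.symm i).1 (finProdFinEquiv.symm i).2
  map_add' _ _ := rfl
  map_smul' _ _ := rfl
  invFun w := Matrix.of fun i j => w (finProdFinEquiv (i, j))
  left_inv X := by
    ext i j
    simp
  right_inv w := funext fun i => congrArg w (finProdFinEquiv.apply_symm_apply i)

/-- endomorphisms of the space of matrices as matrices of size `m * m` -/
noncomputable def red_mat (m : ℕ) :
    Module.End ℚ (Matrix (Fin m) (Fin m) ℚ) ≃ₐ[ℚ] Matrix (Fin (m * m)) (Fin (m * m)) ℚ :=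
  ((red_vec m).conjAlgEquiv ℚ).trans LinearMap.toMatrixAlgEquiv'

theorem red_mat_mulVec (m : ℕ) (f : Module.End ℚ (Matrix (Fin m) (Fin m) ℚ))
    (X : Matrix (Fin m) (Fin m) ℚ) :
    (red_mat m f).mulVec (red_vec m X) = red_vec m (f X) := by
  have h : (red_mat m f) = LinearMap.toMatrixAlgEquiv' ((red_vec m).conjAlgEquiv ℚ f) := rfl
  rw [h]
  rw [← Matrix.toLinAlgEquiv'_apply, Matrix.toLinAlgEquiv'_toMatrixAlgEquiv']
  simp [LinearEquiv.conjAlgEquiv]

/-- left multiplication -/
def red_left (ρ : FreeGroup (Fin d) →* GL (Fin m) ℚ) :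
    FreeGroup (Fin d) × FreeGroup (Fin d) →* Module.End ℚ (Matrix (Fin m) (Fin m) ℚ) where
  toFun x := LinearMap.mulLeft ℚ (ρ x.1).1
  map_one' := by
    ext1 X
    simp
  map_mul' x y := by
    ext1 X
    simp

/-- right multiplication -/
def red_right (ρ : FreeGroup (Fin d) →* GL (Fin m) ℚ) :
    FreeGroup (Fin d) × FreeGroup (Fin d) →* Module.End ℚ (Matrix (Fin m) (Fin m) ℚ) where
  toFun x := LinearMap.mulRight ℚ ((ρ x.2)⁻¹).1
  map_one' := by
    ext1 X
    simp
  map_mul' x y := by
    ext1 X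
    simp [mul_assoc]

theorem red_commute (ρ : FreeGroup (Fin d) →* GL (Fin m) ℚ)
    (x y : FreeGroup (Fin d) × FreeGroup (Fin d)) :
    Commute (red_left ρ x) (red_right ρ y) := LinearMap.commute_mulLeft_right _ _

/-- the action `X ↦ ρ(a) X ρ(b)⁻¹` -/
def red_both (ρ : FreeGroup (Fin d) →* GL (Fin m) ℚ) :
    FreeGroup (Fin d) × FreeGroup (Fin d) →* Module.End ℚ (Matrix (Fin m) (Fin m) ℚ) where
  toFun x := red_left ρ x * red_right ρ x
  map_one' := by simp
  map_mul' x y := by
    rw [map_mul, map_mul]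
    have h := red_commute ρ y x
    calc red_left ρ x * red_left ρ y * (red_right ρ x * red_right ρ y)
        = red_left ρ x * (red_left ρ y * red_right ρ x) * red_right ρ y := by
          simp only [mul_assoc]
      _ = red_left ρ x * (red_right ρ x * red_left ρ y) * red_right ρ y := by rw [h.eq]
      _ = _ := by simp only [mul_assoc]

/-- the same as matrices -/
noncomputable def red_theta (ρ : FreeGroup (Fin d) →* GL (Fin m) ℚ) :
    FreeGroup (Fin d) × FreeGroup (Fin d) →* GL (Fin (m * m)) ℚ :=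
  (((red_mat m : _ →* Matrix (Fin (m * m)) (Fin (m * m)) ℚ)).comp (red_both ρ)).toHomUnits

theorem red_theta_val (ρ : FreeGroup (Fin d) →* GL (Fin m) ℚ)
    (x : FreeGroup (Fin d) × FreeGroup (Fin d)) :
    (red_theta ρ x).1 = red_mat m (red_left ρ x * red_right ρ x) := rfl

theorem red_theta_mulVec (ρ : FreeGroup (Fin d) →* GL (Fin m) ℚ)
    (a b : FreeGroup (Fin d)) (X : Matrix (Fin m) (Fin m) ℚ) :
    (red_theta ρ (a, b)).1.mulVec (red_vec m X) = red_vec m ((ρ a).1 * X * ((ρ b)⁻¹).1) := by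
  rw [red_theta_val, red_mat_mulVec]
  simp [red_left, red_right, mul_assoc]

end Bimod

/-! ### strong unipotence -/

theorem red_list_prod_mem {A : Type*} [Ring A] [Algebra ℚ A] (M : Submodule ℚ A) (l : List A)
    (h : ∀ x ∈ l, x ∈ M) : l.prod ∈ M ^ l.length := by
  induction l with
  | nil => simpa using ⟨1, map_one (algebraMap ℚ A)⟩
  | cons a l ih =>
    rw [List.prod_cons, List.length_cons, pow_succ']
    exact Submodule.mul_mem_mul (h a (by simp)) (ih fun x hx => h x (by simp [hx]))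

theorem red_span_pow {A : Type*} [Ring A] [Algebra ℚ A] (S : Set A) (c : ℕ)
    (h : ∀ l : List A, l.length = c → (∀ x ∈ l, x ∈ S) → l.prod = 0) :
    (Submodule.span ℚ S) ^ c = ⊥ := by
  rw [Submodule.span_pow, Submodule.span_eq_bot]
  intro x hx
  obtain ⟨f, hf⟩ := Set.mem_pow.1 hx
  rw [← hf]
  refine h _ (by simp) ?_
  intro y hy
  obtain ⟨i, rfl⟩ := (List.mem_ofFn' _ _).1 hy
  exact (f i).2

/-- commuting strongly unipotent actions have a strongly unipotent product -/
theorem red_strong {A : Type*} [Ring A] [Algebra ℚ A] {G : Type*} [Group G] (φ₁ φ₂ : G → A)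
    (hc : ∀ x y, Commute (φ₁ x) (φ₂ y)) (H : Set G) (c : ℕ)
    (h1 : ∀ l : List G, l.length = c → (∀ x ∈ l, x ∈ H) → (l.map fun x => φ₁ x - 1).prod = 0)
    (h2 : ∀ l : List G, l.length = c → (∀ x ∈ l, x ∈ H) → (l.map fun x => φ₂ x - 1).prod = 0) :
    ∃ C : ℕ, ∀ l : List G, l.length = C → (∀ x ∈ l, x ∈ H) →
      (l.map fun x => φ₁ x * φ₂ x - 1).prod = 0 := by
  have lift : ∀ φ : G → A,
      (∀ l : List G, l.length = c → (∀ x ∈ l, x ∈ H) → (l.map fun x => φ x - 1).prod = 0) →
      (Submodule.span ℚ ((fun x => φ x - 1) '' H)) ^ c = ⊥ := by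
    intro φ h
    refine red_span_pow _ _ ?_
    intro l hl hm
    choose! g hg using fun (x : A) (hx : x ∈ (fun x => φ x - 1) '' H) => hx
    have : l = (l.map g).map fun x => φ x - 1 := by
      rw [List.map_map]
      conv_lhs => rw [← List.map_id l]
      refine List.map_congr_left ?_
      intro x hx
      exact (hg x (hm x hx)).2.symm
    rw [this]
    refine h _ (by simpa using hl) ?_
    intro x hx
    obtain ⟨y, hy, rfl⟩ := List.mem_map.1 hx
    exact (hg y (hm y hy)).1
  set M₁ := Submodule.span ℚ ((fun x => φ₁ x - 1) '' H) with hM₁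
  set M₂ := Submodule.span ℚ ((fun x => φ₂ x - 1) '' H) with hM₂
  have e1 : M₁ ^ c = 0 := lift φ₁ h1
  have e2 : M₂ ^ c = 0 := lift φ₂ h2
  have hcomm : Commute M₁ M₂ := by
    refine Submodule.mul_comm_of_commute ?_
    intro a ha b hb
    refine Submodule.span_induction₂ (p := fun a b _ _ => Commute a b) ?_ ?_ ?_ ?_ ?_ ?_ ?_ ha hb
    · rintro a b ⟨x, _, rfl⟩ ⟨y, _, rfl⟩
      exact ((hc x y).sub_left (Commute.one_left _)).sub_right (Commute.one_right _)
    · intro y _; exact Commute.zero_left _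
    · intro x _; exact Commute.zero_right _
    · intro x y z _ _ _ h1 h2; exact h1.add_left h2
    · intro x y z _ _ _ h1 h2; exact h1.add_right h2
    · intro r x y _ _ h; exact h.smul_left r
    · intro r x y _ _ h; exact h.smul_right r
  have n1 : IsNilpotent M₁ := ⟨c, e1⟩
  have n2 : IsNilpotent M₂ := ⟨c, e2⟩
  have n12 : IsNilpotent (M₁ * M₂) := hcomm.isNilpotent_mul_right n1
  have nsum : IsNilpotent (M₁ + M₂) := hcomm.isNilpotent_add n1 n2
  have c3 : Commute (M₁ + M₂) (M₁ * M₂) := by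
    refine Commute.add_left ?_ ?_
    · exact (Commute.refl M₁).mul_right hcomm
    · exact hcomm.symm.mul_right (Commute.refl M₂)
  obtain ⟨C, hC⟩ : IsNilpotent (M₁ + M₂ + M₁ * M₂) := c3.isNilpotent_add nsum n12
  refine ⟨C, fun l hl hm => ?_⟩
  have hmem : (l.map fun x => φ₁ x * φ₂ x - 1).prod ∈ (M₁ + M₂ + M₁ * M₂) ^ C := by
    have := red_list_prod_mem (M₁ + M₂ + M₁ * M₂) (l.map fun x => φ₁ x * φ₂ x - 1) ?_
    · rwa [List.length_map, hl] at this
    · intro y hy
      obtain ⟨x, hx, rfl⟩ := List.mem_map.1 hy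
      have m1 : φ₁ x - 1 ∈ M₁ := Submodule.subset_span ⟨x, hm x hx, rfl⟩
      have m2 : φ₂ x - 1 ∈ M₂ := Submodule.subset_span ⟨x, hm x hx, rfl⟩
      have e : φ₁ x * φ₂ x - 1 = (φ₁ x - 1) + (φ₂ x - 1) + (φ₁ x - 1) * (φ₂ x - 1) := by
        noncomm_ring
      rw [e]
      exact Submodule.add_mem_sup (Submodule.add_mem_sup m1 m2) (Submodule.mul_mem_mul m1 m2)
  rw [hC] at hmem
  simpa using hmem

theorem red_left_prod {d m : ℕ} (ρ : FreeGroup (Fin d) →* GL (Fin m) ℚ)
    (l : List (FreeGroup (Fin d) × FreeGroup (Fin d))) :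
    (l.map fun x => red_left ρ x - 1).prod
      = LinearMap.mulLeft ℚ ((l.map Prod.fst).map fun x => (ρ x).1 - 1).prod := by
  induction l with
  | nil =>
    ext1 X
    simp
  | cons a l ih =>
    rw [List.map_cons, List.prod_cons, ih]
    ext1 X
    simp [red_left, sub_mul, mul_assoc]

theorem red_right_prod {d m : ℕ} (ρ : FreeGroup (Fin d) →* GL (Fin m) ℚ)
    (l : List (FreeGroup (Fin d) × FreeGroup (Fin d))) :
    (l.map fun x => red_right ρ x - 1).prod
      = LinearMap.mulRight ℚ
        ((l.map fun x => (x.2)⁻¹).reverse.map fun x => (ρ x).1 - 1).prod := by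
  induction l with
  | nil =>
    ext1 X
    simp
  | cons a l ih =>
    rw [List.map_cons, List.prod_cons, ih]
    ext1 X
    simp [red_right, mul_sub, mul_assoc]

theorem red_theta_strUnip {d m : ℕ} (ρ : FreeGroup (Fin d) →* GL (Fin m) ℚ)
    (K : Subgroup (FreeGroup (Fin d))) (h : StrUnip ρ K) :
    StrUnip (red_theta ρ) (K.prod K) := by
  obtain ⟨c, hc⟩ := h
  obtain ⟨C, hC⟩ := red_strong (fun x => red_left ρ x) (fun x => red_right ρ x)
    (red_commute ρ) (K.prod K : Set (FreeGroup (Fin d) × FreeGroup (Fin d))) c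
    (by
      intro l hl hm
      rw [red_left_prod, hc]
      · ext1 X
        simp
      · simpa using hl
      · intro x hx
        obtain ⟨y, hy, rfl⟩ := List.mem_map.1 hx
        exact (Subgroup.mem_prod.1 (hm y hy)).1)
    (by
      intro l hl hm
      rw [red_right_prod, hc]
      · ext1 X
        simp
      · simpa using hl
      · intro x hx
        rw [List.mem_reverse] at hx
        obtain ⟨y, hy, rfl⟩ := List.mem_map.1 hx
        exact K.inv_mem (Subgroup.mem_prod.1 (hm y hy)).2)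
  refine ⟨C, fun l hl hm => ?_⟩
  have e1 : (l.map fun x => (red_theta ρ x).1 - 1)
      = (l.map fun x => red_left ρ x * red_right ρ x - 1).map (red_mat m) := by
    rw [List.map_map]
    refine List.map_congr_left ?_
    intro x hx
    simp only [Function.comp_apply, map_sub, map_one]
    rw [red_theta_val]
  rw [e1, ← map_list_prod, hC l hl hm, map_zero]

/-- CP-10c: the action of `F × F` on matrices, `X ↦ ρ(a) X ρ(b)⁻¹`, written as matrices of size
`m * m` -/
theorem exists_bimod {d m : ℕ} (ρ : FreeGroup (Fin d) →* GL (Fin m) ℚ) :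
    ∃ (θ : FreeGroup (Fin d) × FreeGroup (Fin d) →* GL (Fin (m * m)) ℚ)
      (v : Matrix (Fin m) (Fin m) ℚ ≃ₗ[ℚ] (Fin (m * m) → ℚ)),
      (∀ a b X, (θ (a, b)).1.mulVec (v X) = v ((ρ a).1 * X * ((ρ b)⁻¹).1)) ∧
      (∀ X i, v X i = X (finProdFinEquiv.symm i).1 (finProdFinEquiv.symm i).2) ∧
      ∀ H : Subgroup (FreeGroup (Fin d)), StrUnip ρ H → StrUnip θ (H.prod H) :=
  ⟨red_theta ρ, red_vec m, red_theta_mulVec ρ, fun _ _ => rfl, red_theta_strUnip ρ⟩

/-- CP-10d: the image of the fibre product is virtually unipotent-by-abelian, and it detects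
conjugacy -/
theorem reduction {G : Type} [Group G] [Group.IsFinitelyPresented G] (h : Cover G) :
    ∃ (d : ℕ) (π : FreeGroup (Fin d) →* G) (m : ℕ) (ρ : FreeGroup (Fin d) →* GL (Fin m) ℚ)
      (Γ : Subgroup (GL (Fin (m * m)) ℚ)), Function.Surjective π ∧ Γ.FG ∧ VirtUnipAb Γ ∧
      ∀ x y : FreeGroup (Fin d), IsConj (π x) (π y) ↔ ∃ g ∈ Γ,
        g.1.mulVec (fun i => (ρ x).1 (finProdFinEquiv.symm i).1 (finProdFinEquiv.symm i).2)
        = fun i => (ρ y).1 (finProdFinEquiv.symm i).1 (finProdFinEquiv.symm i).2 := by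
  obtain ⟨d, π, m, ρ, F0, hπ, hker, hF0, c, hc⟩ := h
  refine ⟨d, π, m, ρ, (fib π).map (red_theta ρ), hπ, ?_, ?_, ?_⟩
  · classical
    obtain ⟨S, hS⟩ := fib_fg π (ker_fng π hπ)
    refine ⟨S.image (red_theta ρ), ?_⟩
    rw [Finset.coe_image, ← MonoidHom.map_closure, hS]
  · set K : Subgroup (FreeGroup (Fin d)) := ⁅F0, F0⁆ with hK
    refine ⟨(fib π ⊓ F0.prod F0).map (red_theta ρ), (fib π ⊓ K.prod K).map (red_theta ρ),
      Subgroup.map_mono inf_le_left, ?_, ?_, ?_, ?_⟩
    · refine Subgroup.map_mono (inf_le_inf le_rfl ?_)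
      have hKF : K ≤ F0 := by
        rw [hK, Subgroup.commutator_le]
        intro a ha b hb
        exact F0.mul_mem (F0.mul_mem (F0.mul_mem ha hb) (F0.inv_mem ha)) (F0.inv_mem hb)
      exact Subgroup.prod_mono hKF hKF
    · rw [← Subgroup.relIndex_comap]
      have h1 : (fib π ⊓ F0.prod F0) ≤
          ((fib π ⊓ F0.prod F0).map (red_theta ρ)).comap (red_theta ρ) :=
        Subgroup.le_comap_map _ _
      have h2 := Subgroup.relIndex_dvd_of_le_left (fib π) h1
      have h3 : (fib π ⊓ F0.prod F0).relIndex (fib π) ≠ 0 := by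
        rw [Subgroup.inf_relIndex_left]
        have : (F0.prod F0).FiniteIndex := by
          constructor
          rw [Subgroup.index_prod]
          exact mul_ne_zero hF0.index_ne_zero hF0.index_ne_zero
        exact Subgroup.FiniteIndex.index_ne_zero
      exact fun h0 => h3 (by rw [h0] at h2; exact Nat.eq_zero_of_zero_dvd h2)
    · rintro _ ⟨x, ⟨hx1, hx2⟩, rfl⟩ _ ⟨y, ⟨hy1, hy2⟩, rfl⟩
      refine ⟨x * y * x⁻¹ * y⁻¹, ⟨?_, ?_⟩, by simp⟩
      · exact (fib π).mul_mem ((fib π).mul_mem ((fib π).mul_mem hx1 hy1) ((fib π).inv_mem hx1))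
          ((fib π).inv_mem hy1)
      · have hx2' := Subgroup.mem_prod.1 hx2
        have hy2' := Subgroup.mem_prod.1 hy2
        refine Subgroup.mem_prod.2 ⟨?_, ?_⟩
        · exact Subgroup.commutator_mem_commutator hx2'.1 hy2'.1
        · exact Subgroup.commutator_mem_commutator hx2'.2 hy2'.2
    · obtain ⟨C, hC⟩ := red_theta_strUnip ρ K ⟨c, hc⟩
      refine ⟨C, fun l hl hm => ?_⟩
      choose! g hg using fun (x : GL (Fin (m * m)) ℚ)
        (hx : x ∈ (fib π ⊓ K.prod K).map (red_theta ρ)) => hx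
      have e1 : (l.map fun x => x.1 - 1)
          = ((l.map g).map fun x => (red_theta ρ x).1 - 1) := by
        rw [List.map_map]
        refine List.map_congr_left ?_
        intro x hx
        simp only [Function.comp_apply]
        rw [(hg x (hm x hx)).2]
      rw [e1, hC]
      · simpa using hl
      · intro x hx
        obtain ⟨y, hy, rfl⟩ := List.mem_map.1 hx
        exact (hg y (hm y hy)).1.2
  · intro x y
    have hv : ∀ z : FreeGroup (Fin d),
        (fun i => (ρ z).1 (finProdFinEquiv.symm i).1 (finProdFinEquiv.symm i).2)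
          = red_vec m (ρ z).1 := fun _ => rfl
    rw [hv, hv]
    constructor
    · intro hxy
      obtain ⟨c', hc'⟩ := isConj_iff.1 hxy
      obtain ⟨g, rfl⟩ := hπ c'
      refine ⟨red_theta ρ (y * g * x⁻¹, g), ⟨(y * g * x⁻¹, g), ?_, rfl⟩, ?_⟩
      · show π (y * g * x⁻¹) = π g
        rw [map_mul, map_mul, map_inv, ← hc']
        group
      · rw [red_theta_mulVec]
        congr 1
        have : ρ (y * g * x⁻¹) * ρ x * (ρ g)⁻¹ = ρ y := by
          rw [map_mul, map_mul, map_inv]; group
        rw [← this]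
        simp
    · rintro ⟨_, ⟨⟨a, b⟩, hab, rfl⟩, hg⟩
      have hab' : π a = π b := hab
      rw [red_theta_mulVec] at hg
      have h1 := (red_vec m).injective hg
      have h2 : ρ (a * x * b⁻¹ * y⁻¹) = 1 := by
        have h3 : ρ a * ρ x * (ρ b)⁻¹ = ρ y := by
          apply Units.ext
          simpa using h1
        rw [map_mul, map_mul, map_mul, map_inv, map_inv, h3, mul_inv_cancel]
      have h4 : a * x * b⁻¹ * y⁻¹ ∈ π.ker := hker h2
      rw [MonoidHom.mem_ker, map_mul, map_mul, map_mul, map_inv, map_inv, ← hab'] at h4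
      exact isConj_iff.2 ⟨π a, mul_inv_eq_one.1 h4⟩

end Pool.Agent.CP
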